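import Mathlib

set_option autoImplicit false

namespace Pool.Agent.H63.OB

/-- A box in `[n]^d`, given by its sides. -/
abbrev Box (n d : ℕ) := Fin d → Finset (Fin n)

/-- `P` is a partition of `[n]^d` into odd proper boxes: every side of every member has odd size
and is not the whole of `[n]`, and every point of `[n]^d` lies in exactly one member. -/
def IsOddProperPartition {n d : ℕ} (P : Finset (Box n d)) : Prop :=
  (∀ b ∈ P, ∀ i, Odd (b i).card ∧ b i ≠ Finset.univ) ∧
    ∀ x : Fin d → Fin n, ∃! b, b ∈ P ∧ ∀ i, x i ∈ b i

end Pool.Agent.H63.OB
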