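import Mathlib
import Pool.Agent.H63.OB.Defs

set_option autoImplicit false

namespace Pool.Agent.H63.OB

open Finset

variable {n : ℕ}

/-- `(-1)^{|R ∩ T|}` -/
def sgn (T R : Finset (Fin n)) : ℤ := ∏ x ∈ R, (if x ∈ T then -1 else 1)

lemma sgn_eq (T R : Finset (Fin n)) : sgn T R = (-1) ^ (R ∩ T).card := by
  unfold sgn
  rw [Finset.prod_ite, Finset.prod_const, Finset.prod_const_one, mul_one]
  congr 2

lemma sum_sgn (T : Finset (Fin n)) (hT : T.Nonempty) :
    ∑ R ∈ (univ : Finset (Fin n)).powerset, sgn T R = 0 := by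
  unfold sgn
  rw [← Finset.prod_one_add]
  obtain ⟨x, hx⟩ := hT
  apply Finset.prod_eq_zero (mem_univ x)
  simp [hx]

lemma sgn_mul_univ (S R : Finset (Fin n)) : sgn univ R * sgn S R = sgn Sᶜ R := by
  unfold sgn
  rw [← Finset.prod_mul_distrib]
  apply Finset.prod_congr rfl
  intro x _
  by_cases hx : x ∈ S <;> simp [hx]

lemma sum_pair (S : Finset (Fin n)) (hS : S.Nonempty) (hS2 : S ≠ univ) :
    ∑ R ∈ (univ : Finset (Fin n)).powerset, (1 - sgn univ R) * (1 - sgn S R) = 2 ^ n := by
  have h0 : (univ : Finset (Fin n)).Nonempty := hS.mono (subset_univ _)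
  have h1 : Sᶜ.Nonempty := by
    rw [Finset.nonempty_iff_ne_empty]
    intro h
    apply hS2
    rwa [Finset.compl_eq_empty_iff] at h
  have e : ∀ R : Finset (Fin n), (1 - sgn univ R) * (1 - sgn S R) =
      1 - sgn univ R - sgn S R + sgn Sᶜ R := by
    intro R
    rw [← sgn_mul_univ]; ring
  simp_rw [e]
  rw [Finset.sum_add_distrib, Finset.sum_sub_distrib, Finset.sum_sub_distrib, sum_sgn _ h0,
    sum_sgn _ hS, sum_sgn _ h1]
  simp

lemma sum_single (h0 : (univ : Finset (Fin n)).Nonempty) :
    ∑ R ∈ (univ : Finset (Fin n)).powerset, (1 - sgn univ R) = 2 ^ n := by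
  rw [Finset.sum_sub_distrib, sum_sgn _ h0]
  simp

lemma one_sub_sgn (T R : Finset (Fin n)) :
    (1 - sgn T R : ℤ) = if Odd (R ∩ T).card then 2 else 0 := by
  rw [sgn_eq]
  split_ifs with h
  · rw [h.neg_one_pow]; norm_num
  · rw [Nat.not_odd_iff_even] at h
    rw [h.neg_one_pow]; norm_num

/-- the number of boxes (indexed by `J`) containing a point -/
def cnt {ι : Type*} [DecidableEq ι] {d : ℕ} (J : Finset ι) (b : ι → Box n d) (x : Fin d → Fin n) : ℕ :=
  (J.filter (fun j => ∀ i, x i ∈ b j i)).card

/-- An odd cover of `[n]^d` by odd proper boxes has at least `2^(d+1) - 1` members. -/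
theorem xor_cover {ι : Type*} [DecidableEq ι] (hn : Odd n) (d : ℕ) (J : Finset ι) (b : ι → Box n d)
    (hb : ∀ j ∈ J, ∀ i, Odd (b j i).card ∧ b j i ≠ univ)
    (hc : ∀ x, Odd (cnt J b x)) : 2 ^ (d + 1) ≤ J.card + 1 := by
  induction d generalizing J with
  | zero =>
    have h := hc (fun i => i.elim0)
    have : cnt J b (fun i => i.elim0) = J.card := by
      unfold cnt
      congr 1
      apply Finset.filter_true_of_mem
      intro j _ i
      exact i.elim0
    rw [this] at h
    have := h.pos
    norm_num
    omega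
  | succ d ih =>
    have hn0 : 0 < n := hn.pos
    -- the slice argument
    have hslice : ∀ R : Finset (Fin n), Odd R.card →
        2 ^ (d + 1) ≤ (J.filter (fun j => Odd (R ∩ b j (Fin.last d)).card)).card + 1 := by
      intro R hR
      apply ih (J.filter (fun j => Odd (R ∩ b j (Fin.last d)).card)) (fun j i => b j i.castSucc)
      · intro j hj i
        exact hb j (mem_filter.mp hj).1 _
      · intro x
        -- parity of a double sum
        have h1 : ∑ t ∈ R, cnt J b (Fin.snoc x t) =
            ∑ j ∈ J.filter (fun j => ∀ i : Fin d, x i ∈ b j i.castSucc), (R ∩ b j (Fin.last d)).card := by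
          unfold cnt
          simp_rw [Finset.card_filter, Finset.card_eq_sum_ones, Finset.sum_filter]
          rw [Finset.sum_comm]
          apply Finset.sum_congr rfl
          intro j _
          have e : ∀ t : Fin n, (∀ i : Fin (d + 1), (Fin.snoc x t : Fin (d + 1) → Fin n) i ∈ b j i) ↔
              ((∀ i : Fin d, x i ∈ b j i.castSucc) ∧ t ∈ b j (Fin.last d)) := by
            intro t
            rw [Fin.forall_fin_succ']
            simp
          simp_rw [e]
          by_cases hx : ∀ i : Fin d, x i ∈ b j i.castSucc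
          · simp only [hx, implies_true, true_and, if_true]
            rw [← Finset.sum_filter]
            congr 1
          · simp [hx]
        have h2 : Odd (∑ t ∈ R, cnt J b (Fin.snoc x t)) := by
          rw [Finset.odd_sum_iff_odd_card_odd]
          have : R.filter (fun t => Odd (cnt J b (Fin.snoc x t))) = R :=
            Finset.filter_true_of_mem (fun t _ => hc _)
          rwa [this]
        rw [h1, Finset.odd_sum_iff_odd_card_odd] at h2
        unfold cnt
        rw [Finset.filter_filter] at h2 ⊢
        convert h2 using 3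
        tauto
    -- double counting
    by_cases hn1 : n = 1
    · subst hn1
      exfalso
      have h := hc (fun _ => 0)
      have hpos := h.pos
      unfold cnt at hpos
      rw [Finset.card_pos] at hpos
      obtain ⟨j, hj⟩ := hpos
      rw [mem_filter] at hj
      have h2 := (hb j hj.1 0).2
      apply h2
      ext x
      have := hj.2 0
      have hx : x = 0 := Subsingleton.elim _ _
      simp [hx, this]
    have hn3 : 3 ≤ n := by
      obtain ⟨k, hk⟩ := hn
      omega
    have huniv : (univ : Finset (Fin n)).Nonempty := ⟨⟨0, hn0⟩, mem_univ _⟩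
    set PS := ((univ : Finset (Fin n)).powerset).erase univ with hPS
    have hmem : (univ : Finset (Fin n)) ∈ (univ : Finset (Fin n)).powerset := by simp
    have hA : ∀ j ∈ J, ∑ R ∈ PS, (1 - sgn univ R) * (1 - sgn (b j (Fin.last d)) R) = 2 ^ n - 4 := by
      intro j hj
      have hbj := hb j hj (Fin.last d)
      have hne : (b j (Fin.last d)).Nonempty := Finset.card_pos.mp hbj.1.pos
      have h := sum_pair (b j (Fin.last d)) hne hbj.2
      rw [← Finset.sum_erase_add _ _ hmem] at h
      have h1 : (1 - sgn (univ : Finset (Fin n)) univ : ℤ) = 2 := by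
        rw [one_sub_sgn, if_pos]
        simpa using hn
      have h2 : (1 - sgn (b j (Fin.last d)) univ : ℤ) = 2 := by
        rw [one_sub_sgn, if_pos]
        simpa using hbj.1
      rw [h1, h2] at h
      rw [hPS]
      linarith
    have hB : ∑ R ∈ PS, (1 - sgn univ R) = 2 ^ n - 2 := by
      have h := sum_single (n := n) huniv
      rw [← Finset.sum_erase_add _ _ hmem] at h
      have h1 : (1 - sgn (univ : Finset (Fin n)) univ : ℤ) = 2 := by
        rw [one_sub_sgn, if_pos]
        simpa using hn
      rw [h1] at h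
      rw [hPS]
      linarith
    have hC : ∀ R ∈ PS, (1 - sgn univ R) * (2 * (2 ^ (d + 1) - 1)) ≤
        ∑ j ∈ J, (1 - sgn univ R) * (1 - sgn (b j (Fin.last d)) R) := by
      intro R _
      rw [← Finset.mul_sum]
      by_cases hR : Odd R.card
      · have h1 : (1 - sgn univ R : ℤ) = 2 := by
          rw [one_sub_sgn, if_pos]
          simpa using hR
        rw [h1]
        have h2 : ∑ j ∈ J, (1 - sgn (b j (Fin.last d)) R) =
            2 * ((J.filter (fun j => Odd (R ∩ b j (Fin.last d)).card)).card : ℤ) := by
          simp_rw [one_sub_sgn]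
          rw [← Finset.sum_filter, Finset.sum_const, nsmul_eq_mul, mul_comm]
        rw [h2]
        have h3 := hslice R hR
        have h4 : (2:ℤ) ^ (d + 1) ≤ ((J.filter (fun j => Odd (R ∩ b j (Fin.last d)).card)).card : ℤ) + 1 := by
          exact_mod_cast h3
        linarith
      · have h1 : (1 - sgn univ R : ℤ) = 0 := by
          rw [one_sub_sgn, if_neg]
          simpa using hR
        rw [h1]; simp
    have hsum := Finset.sum_le_sum hC
    rw [← Finset.sum_mul, hB, Finset.sum_comm, Finset.sum_congr rfl hA, Finset.sum_const,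
      nsmul_eq_mul] at hsum
    have h8 : (8:ℤ) ≤ 2 ^ n := by
      calc (8:ℤ) = 2 ^ 3 := by norm_num
        _ ≤ 2 ^ n := pow_le_pow_right₀ (by norm_num) hn3
    have hd2 : (2:ℤ) ≤ 2 ^ (d + 1) := by
      calc (2:ℤ) = 2 ^ 1 := by norm_num
        _ ≤ 2 ^ (d + 1) := pow_le_pow_right₀ (by norm_num) (by omega)
    have hfin : 2 * ((2:ℤ) ^ (d + 1) - 1) < J.card := by
      by_contra hcon
      push Not at hcon
      nlinarith
    have h9 : (2:ℤ) ^ (d + 1 + 1) ≤ (J.card : ℤ) + 1 := by
      rw [pow_succ]; omega
    exact_mod_cast h9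

/-- Uniform lower bound: a partition of `[n]^d` into odd proper boxes has at least `2^(d+1) - 1` parts. -/
theorem uniform_lower {d : ℕ} (hn : Odd n) (P : Finset (Box n d)) (hP : IsOddProperPartition P) :
    2 ^ (d + 1) ≤ P.card + 1 := by
  apply xor_cover hn d P (fun b => b)
  · intro b hb i
    exact hP.1 b hb i
  · intro x
    obtain ⟨b, hb, huniq⟩ := hP.2 x
    have : cnt P (fun b => b) x = 1 := by
      unfold cnt
      rw [Finset.card_eq_one]
      refine ⟨b, ?_⟩
      ext c
      rw [mem_filter, mem_singleton]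
      constructor
      · intro hc; exact huniq c hc
      · rintro rfl; exact hb
    rw [this]
    exact odd_one

end Pool.Agent.H63.OB
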