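import Mathlib
import Pool.Agent.H63.OB.Defs

set_option autoImplicit false

namespace Pool.Agent.H63.OB

open Finset

/-- `φ(a) = a log a` -/
noncomputable def phi (a : ℝ) : ℝ := a * Real.log a

lemma phi_merge (a b : ℝ) (ha : 1 ≤ a) (hb : 1 ≤ b) : phi a + phi b ≤ phi (a + b - 1) := by
  rcases eq_or_lt_of_le ha with h1 | h1
  · subst h1
    simp [phi]
  rcases eq_or_lt_of_le hb with h2 | h2
  · subst h2
    simp [phi]
  set s := a + b - 1 with hs
  have hs1 : 0 < s - 1 := by rw [hs]; linarith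
  have hconv := Real.convexOn_mul_log
  have ha0 : 0 ≤ (a - 1) / (s - 1) := div_nonneg (by linarith) hs1.le
  have hb0 : 0 ≤ (b - 1) / (s - 1) := div_nonneg (by linarith) hs1.le
  have hab : (a - 1) / (s - 1) + (b - 1) / (s - 1) = 1 := by
    rw [← add_div, div_eq_one_iff_eq hs1.ne', hs]; ring
  have hs0 : s ∈ Set.Ici (0:ℝ) := by simp only [Set.mem_Ici]; linarith
  have h10 : (1:ℝ) ∈ Set.Ici (0:ℝ) := by simp
  have e1 := hconv.2 hs0 h10 ha0 hb0 hab
  have e2 := hconv.2 hs0 h10 hb0 ha0 (by rw [add_comm]; exact hab)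
  simp only [smul_eq_mul, Real.log_one, mul_zero, add_zero, mul_one] at e1 e2
  have f1 : (a - 1) / (s - 1) * s + (b - 1) / (s - 1) = a := by
    field_simp; rw [hs]; ring
  have f2 : (b - 1) / (s - 1) * s + (a - 1) / (s - 1) = b := by
    field_simp; rw [hs]; ring
  rw [f1] at e1
  rw [f2] at e2
  unfold phi
  have : (a - 1) / (s - 1) * (s * Real.log s) + (b - 1) / (s - 1) * (s * Real.log s) = s * Real.log s := by
    rw [← add_mul, hab, one_mul]
  linarith

lemma phi_sum {ι : Type*} (J : Finset ι) (hJ : J.Nonempty) (a : ι → ℝ) (ha : ∀ j ∈ J, 1 ≤ a j) :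
    ∑ j ∈ J, phi (a j) ≤ phi (∑ j ∈ J, a j - J.card + 1) := by
  classical
  induction hJ using Finset.Nonempty.cons_induction with
  | singleton j => simp
  | cons j J hj hJ ih =>
    rw [Finset.sum_cons, Finset.sum_cons, Finset.card_cons]
    have h1 := ih (fun k hk => ha k (Finset.mem_cons_of_mem hk))
    have h2 : (J.card : ℝ) ≤ ∑ k ∈ J, a k := by
      have := Finset.sum_le_sum (fun k hk => ha k (Finset.mem_cons_of_mem hk))
      simpa using this
    have h3 := phi_merge (a j) (∑ k ∈ J, a k - J.card + 1) (ha j (Finset.mem_cons_self j J)) (by linarith)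
    have e : a j + (∑ k ∈ J, a k - J.card + 1) - 1 = a j + ∑ k ∈ J, a k - ((J.card + 1 : ℕ) : ℝ) + 1 := by
      push_cast; ring
    rw [e] at h3
    linarith

lemma phi_mono {a b : ℝ} (ha : 1 ≤ a) (hab : a ≤ b) : phi a ≤ phi b := by
  unfold phi
  exact mul_le_mul hab (Real.log_le_log (by linarith) hab) (Real.log_nonneg ha) (by linarith)

section

variable {n d : ℕ} (P : Finset (Box n d)) (hP : IsOddProperPartition P)

/-- the box of the partition containing `x` -/
noncomputable def boxOf (x : Fin d → Fin n) : Box n d := (hP.2 x).choose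

lemma boxOf_mem (x : Fin d → Fin n) : boxOf P hP x ∈ P := (hP.2 x).choose_spec.1.1

lemma mem_boxOf (x : Fin d → Fin n) (i : Fin d) : x i ∈ boxOf P hP x i := (hP.2 x).choose_spec.1.2 i

lemma boxOf_eq (x : Fin d → Fin n) (b : Box n d) (hb : b ∈ P) (h : ∀ i, x i ∈ b i) :
    boxOf P hP x = b := ((hP.2 x).choose_spec.2 b ⟨hb, h⟩).symm

lemma line_bound (hn : Odd n) (x : Fin d → Fin n) (i : Fin d) :
    ∑ t : Fin n, Real.log ((boxOf P hP (Function.update x i t) i).card : ℝ) ≤
      ((n : ℝ) - 2) * Real.log ((n : ℝ) - 2) := by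
  classical
  set J := P.filter (fun b => ∀ j, j ≠ i → x j ∈ b j) with hJ
  have hmaps : ∀ t ∈ (univ : Finset (Fin n)), boxOf P hP (Function.update x i t) ∈ J := by
    intro t _
    rw [hJ, mem_filter]
    refine ⟨boxOf_mem P hP _, ?_⟩
    intro j hj
    have := mem_boxOf P hP (Function.update x i t) j
    rwa [Function.update_of_ne hj] at this
  have hfib : ∀ b ∈ J, (univ : Finset (Fin n)).filter (fun t => boxOf P hP (Function.update x i t) = b) = b i := by
    intro b hb
    rw [hJ, mem_filter] at hb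
    ext t
    rw [mem_filter]
    constructor
    · rintro ⟨_, h⟩
      have := mem_boxOf P hP (Function.update x i t) i
      rwa [h, Function.update_self] at this
    · intro ht
      refine ⟨mem_univ _, ?_⟩
      apply boxOf_eq P hP _ b hb.1
      intro j
      by_cases hj : j = i
      · subst hj; rwa [Function.update_self]
      · rw [Function.update_of_ne hj]; exact hb.2 j hj
  have hsum : ∀ g : Box n d → ℝ, ∑ t : Fin n, g (boxOf P hP (Function.update x i t)) =
      ∑ b ∈ J, ((b i).card : ℝ) * g b := by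
    intro g
    rw [← Finset.sum_fiberwise_of_maps_to hmaps]
    apply Finset.sum_congr rfl
    intro b hb
    have : ∀ t ∈ (univ : Finset (Fin n)).filter (fun t => boxOf P hP (Function.update x i t) = b),
        g (boxOf P hP (Function.update x i t)) = g b := by
      intro t ht
      rw [(mem_filter.mp ht).2]
    rw [Finset.sum_congr rfl this, Finset.sum_const, hfib b hb, nsmul_eq_mul]
  have h1 : ∑ b ∈ J, ((b i).card : ℝ) = n := by
    have := hsum (fun _ => 1)
    simpa using this.symm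
  have h1' : ∑ b ∈ J, (b i).card = n := by exact_mod_cast h1
  have hodd : ∀ b ∈ J, Odd (b i).card := fun b hb => (hP.1 b (mem_filter.mp hb).1 i).1
  have hJodd : Odd J.card := by
    have h2 : Odd (∑ b ∈ J, (b i).card) := by rw [h1']; exact hn
    rw [Finset.odd_sum_iff_odd_card_odd] at h2
    have : J.filter (fun b => Odd (b i).card) = J := Finset.filter_true_of_mem hodd
    rwa [this] at h2
  have hJne : J.Nonempty := Finset.card_pos.mp hJodd.pos
  have hJ1 : J.card ≠ 1 := by
    intro h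
    obtain ⟨b, hb⟩ := Finset.card_eq_one.mp h
    rw [hb, Finset.sum_singleton] at h1'
    have hbJ : b ∈ J := by rw [hb]; exact mem_singleton_self b
    apply (hP.1 b (mem_filter.mp hbJ).1 i).2
    rw [← Finset.card_eq_iff_eq_univ, h1', Fintype.card_fin]
  have hJ3 : 3 ≤ J.card := by
    obtain ⟨k, hk⟩ := hJodd
    omega
  have hJn : (J.card : ℝ) ≤ n := by
    rw [← h1]
    have : ∀ b ∈ J, (1:ℝ) ≤ ((b i).card : ℝ) := fun b hb => by exact_mod_cast (hodd b hb).pos
    have := Finset.sum_le_sum this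
    simpa using this
  have h2 := hsum (fun b => Real.log ((b i).card : ℝ))
  rw [h2]
  have h3 := phi_sum J hJne (fun b => ((b i).card : ℝ)) (fun b hb => by exact_mod_cast (hodd b hb).pos)
  rw [h1] at h3
  have h4 : phi ((n:ℝ) - J.card + 1) ≤ phi ((n:ℝ) - 2) := by
    apply phi_mono
    · linarith
    · have : (3:ℝ) ≤ J.card := by exact_mod_cast hJ3
      linarith
  exact h3.trans h4

lemma sum_update (f : (Fin d → Fin n) → ℝ) (i : Fin d) :
    ∑ x : Fin d → Fin n, ∑ t : Fin n, f (Function.update x i t) = n * ∑ x, f x := by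
  rw [← Fintype.sum_prod_type']
  have : ∑ p : (Fin d → Fin n) × Fin n, f (Function.update p.1 i p.2) =
      ∑ p : (Fin d → Fin n) × Fin n, f p.1 := by
    apply Fintype.sum_equiv
      { toFun := fun p => (Function.update p.1 i p.2, p.1 i)
        invFun := fun p => (Function.update p.1 i p.2, p.1 i)
        left_inv := fun p => by simp
        right_inv := fun p => by simp }
    intro p
    rfl
  rw [this, Fintype.sum_prod_type]
  simp [Finset.mul_sum]

/-- number of parts as a sum over points -/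
lemma card_eq_sum : (P.card : ℝ) = ∑ x : Fin d → Fin n, ∏ i, ((boxOf P hP x i).card : ℝ)⁻¹ := by
  classical
  rw [← Finset.sum_fiberwise_of_maps_to (t := P) (g := fun x => boxOf P hP x)
    (fun x _ => boxOf_mem P hP x)]
  have : ∀ b ∈ P, ∑ x ∈ (univ : Finset (Fin d → Fin n)).filter (fun x => boxOf P hP x = b),
      ∏ i, ((boxOf P hP x i).card : ℝ)⁻¹ = 1 := by
    intro b hb
    have h1 : ∀ x ∈ (univ : Finset (Fin d → Fin n)).filter (fun x => boxOf P hP x = b),
        ∏ i, ((boxOf P hP x i).card : ℝ)⁻¹ = ∏ i, ((b i).card : ℝ)⁻¹ := by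
      intro x hx
      rw [(mem_filter.mp hx).2]
    have h2 : (univ : Finset (Fin d → Fin n)).filter (fun x => boxOf P hP x = b) = Fintype.piFinset b := by
      ext x
      rw [mem_filter, Fintype.mem_piFinset]
      constructor
      · rintro ⟨_, h⟩ i
        rw [← h]; exact mem_boxOf P hP x i
      · intro h
        exact ⟨mem_univ _, boxOf_eq P hP x b hb h⟩
    rw [Finset.sum_congr rfl h1, Finset.sum_const, h2, Fintype.card_piFinset, nsmul_eq_mul]
    push_cast
    rw [← Finset.prod_mul_distrib]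
    apply Finset.prod_eq_one
    intro i _
    apply mul_inv_cancel₀
    have := (hP.1 b hb i).1.pos
    positivity
  rw [Finset.sum_congr rfl this]
  simp

include hP in
/-- Entropy bound: `m^n (n-2)^((n-2)d) ≥ n^(nd)`. -/
theorem entropy_lower (hn : Odd n) (hn3 : 3 ≤ n) :
    n ^ (n * d) ≤ P.card ^ n * (n - 2) ^ ((n - 2) * d) := by
  classical
  have hn0 : (0:ℝ) < n := by
    have : 0 < n := by omega
    exact_mod_cast this
  have hN : (0:ℝ) < (n:ℝ) ^ d := by positivity
  have hpos : ∀ x i, (0:ℝ) < ((boxOf P hP x i).card : ℝ) := by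
    intro x i
    have := (hP.1 _ (boxOf_mem P hP x) i).1.pos
    exact_mod_cast this
  set y : (Fin d → Fin n) → ℝ := fun x => - ∑ i, Real.log ((boxOf P hP x i).card : ℝ) with hy
  have hexp : ∀ x, ∏ i, ((boxOf P hP x i).card : ℝ)⁻¹ = Real.exp (y x) := by
    intro x
    rw [hy]
    simp only
    rw [Real.exp_neg, Real.exp_sum, Finset.prod_inv_distrib]
    congr 1
    apply Finset.prod_congr rfl
    intro i _
    rw [Real.exp_log (hpos x i)]
  have hcard : (P.card : ℝ) = ∑ x, Real.exp (y x) := by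
    rw [card_eq_sum P hP]
    exact Finset.sum_congr rfl (fun x _ => hexp x)
  have hw : ∑ _x : Fin d → Fin n, ((n:ℝ) ^ d)⁻¹ = 1 := by
    simp only [Finset.sum_const, card_univ, Fintype.card_pi, Fintype.card_fin, prod_const,
      nsmul_eq_mul]
    push_cast
    exact mul_inv_cancel₀ hN.ne'
  have hjensen := convexOn_exp.map_sum_le (t := (univ : Finset (Fin d → Fin n)))
    (w := fun _ => ((n:ℝ) ^ d)⁻¹) (p := y) (fun _ _ => by positivity) hw (fun _ _ => Set.mem_univ _)
  simp only [smul_eq_mul] at hjensen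
  rw [← Finset.mul_sum, ← Finset.mul_sum, ← hcard] at hjensen
  -- lower bound for the sum of `y`
  have hysum : -( (n:ℝ) ^ d * (d * (((n:ℝ) - 2) * Real.log ((n:ℝ) - 2))) / n) ≤ ∑ x, y x := by
    rw [hy, Finset.sum_neg_distrib, neg_le_neg_iff, Finset.sum_comm]
    have h1 : ∀ i : Fin d, ∑ x, Real.log ((boxOf P hP x i).card : ℝ) ≤
        (n:ℝ) ^ d * (((n:ℝ) - 2) * Real.log ((n:ℝ) - 2)) / n := by
      intro i
      rw [le_div_iff₀ hn0, mul_comm, ← sum_update (fun x => Real.log ((boxOf P hP x i).card : ℝ)) i]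
      calc ∑ x : Fin d → Fin n, ∑ t : Fin n, Real.log ((boxOf P hP (Function.update x i t) i).card : ℝ)
          ≤ ∑ _x : Fin d → Fin n, ((n:ℝ) - 2) * Real.log ((n:ℝ) - 2) :=
            Finset.sum_le_sum fun x _ => line_bound P hP hn x i
        _ = _ := by simp
    calc ∑ i, ∑ x, Real.log ((boxOf P hP x i).card : ℝ)
        ≤ ∑ _i : Fin d, (n:ℝ) ^ d * (((n:ℝ) - 2) * Real.log ((n:ℝ) - 2)) / n :=
          Finset.sum_le_sum fun i _ => h1 i
      _ = _ := by simp; ring
  have hPpos : (0:ℝ) < P.card := by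
    rw [hcard]
    have : Nonempty (Fin d → Fin n) := ⟨fun _ => ⟨0, by omega⟩⟩
    exact Finset.sum_pos (fun x _ => Real.exp_pos _) Finset.univ_nonempty
  have hlog : (d:ℝ) * Real.log n - d * (((n:ℝ) - 2) * Real.log ((n:ℝ) - 2)) / n ≤ Real.log P.card := by
    have h1 := Real.log_le_log (Real.exp_pos _) hjensen
    rw [Real.log_exp, Real.log_mul (by positivity) hPpos.ne', Real.log_inv, Real.log_pow] at h1
    have h2 : ((n:ℝ) ^ d)⁻¹ * -( (n:ℝ) ^ d * (d * (((n:ℝ) - 2) * Real.log ((n:ℝ) - 2))) / n) ≤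
        ((n:ℝ) ^ d)⁻¹ * ∑ x, y x := mul_le_mul_of_nonneg_left hysum (by positivity)
    have h3 : ((n:ℝ) ^ d)⁻¹ * -( (n:ℝ) ^ d * (d * (((n:ℝ) - 2) * Real.log ((n:ℝ) - 2))) / n) =
        - (d * (((n:ℝ) - 2) * Real.log ((n:ℝ) - 2)) / n) := by
      field_simp
    rw [h3] at h2
    linarith
  have hn2 : ((n - 2 : ℕ) : ℝ) = (n:ℝ) - 2 := by
    rw [Nat.cast_sub (by omega)]; norm_num
  have hn2pos : (0:ℝ) < (n:ℝ) - 2 := by
    have : (3:ℝ) ≤ n := by exact_mod_cast hn3
    linarith
  have hfin : Real.log ((n:ℝ) ^ (n * d)) ≤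
      Real.log ((P.card : ℝ) ^ n * ((n:ℝ) - 2) ^ ((n - 2) * d)) := by
    rw [Real.log_mul (by positivity) (by positivity), Real.log_pow, Real.log_pow, Real.log_pow]
    push_cast
    rw [hn2]
    have h4 := mul_le_mul_of_nonneg_left hlog hn0.le
    have h5 : (n:ℝ) * (d * Real.log n - d * (((n:ℝ) - 2) * Real.log ((n:ℝ) - 2)) / n) =
        n * d * Real.log n - ((n:ℝ) - 2) * d * Real.log ((n:ℝ) - 2) := by
      field_simp
    rw [h5] at h4
    linarith
  have h6 := (Real.log_le_log_iff (by positivity) (by positivity)).mp hfin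
  have h7 : ((n ^ (n * d) : ℕ) : ℝ) ≤ ((P.card ^ n * (n - 2) ^ ((n - 2) * d) : ℕ) : ℝ) := by
    push_cast
    rw [hn2]
    exact h6
  exact_mod_cast h7

end

end Pool.Agent.H63.OB
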